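import Mathlib

set_option autoImplicit false

namespace Pool.Agent.Lib.MP_f2fe1e_co

/-- A finite (unrooted) tree with nonnegative real edge weights, together with a bijection
between `V` and the set of its leaves (vertices with exactly one neighbour). -/
structure LeafTree (V : Type) where
  /-- the vertices of the tree -/
  Node : Type
  /-- the tree is finite -/
  finite : Finite Node
  /-- the tree -/
  T : SimpleGraph Node
  isTree : T.IsTree
  /-- the edge weights -/
  w : Sym2 Node → ℝ
  w_nonneg : ∀ e, 0 ≤ w e
  /-- the labelling of the leaves by `V` -/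
  leaf : V → Node
  leaf_injective : Function.Injective leaf
  range_leaf : Set.range leaf = {x | ∃! y, T.Adj x y}

/-- The distance of two leaves: the total weight of the unique path joining them. -/
noncomputable def LeafTree.dist {V : Type} (L : LeafTree V) (u v : V) : ℝ :=
  ((L.isTree.existsUnique_path (L.leaf u) (L.leaf v)).choose.edges.map L.w).sum

/-- A (nonempty) interval of nonnegative reals. -/
def IsIval (I : Set ℝ) : Prop := I.Nonempty ∧ I.OrdConnected ∧ I ⊆ Set.Ici 0

/-- `G` is a `k`-interval pairwise compatibility graph: one tree, `k` pairwise disjoint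
intervals. -/
def IntervalPCG (k : ℕ) {V : Type} (G : SimpleGraph V) : Prop :=
  ∃ (L : LeafTree V) (I : Fin k → Set ℝ), (∀ i, IsIval (I i)) ∧
    Pairwise (fun i j => Disjoint (I i) (I j)) ∧
    ∀ u v, u ≠ v → (G.Adj u v ↔ ∃ i, L.dist u v ∈ I i)

/-- `G` is an OR-`k`-PCG: `k` trees with `k` intervals, `uv` is an edge iff the distance of `u`
and `v` lies in the interval for at least one of the trees. -/
def OrPCG (k : ℕ) {V : Type} (G : SimpleGraph V) : Prop :=
  ∃ (L : Fin k → LeafTree V) (I : Fin k → Set ℝ), (∀ i, IsIval (I i)) ∧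
    ∀ u v, u ≠ v → (G.Adj u v ↔ ∃ i, (L i).dist u v ∈ I i)

/-- `G` is an AND-`k`-PCG: `k` trees with `k` intervals, `uv` is an edge iff the distance of `u`
and `v` lies in the interval for all of the trees. -/
def AndPCG (k : ℕ) {V : Type} (G : SimpleGraph V) : Prop :=
  ∃ (L : Fin k → LeafTree V) (I : Fin k → Set ℝ), (∀ i, IsIval (I i)) ∧
    ∀ u v, u ≠ v → (G.Adj u v ↔ ∀ i, (L i).dist u v ∈ I i)

/-- A class of finite graphs is closed under complement. -/
def ClosedUnderComplement (C : ∀ {V : Type}, SimpleGraph V → Prop) : Prop :=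
  ∀ (V : Type) (_ : Finite V) (G : SimpleGraph V), C G → C Gᶜ

end Pool.Agent.Lib.MP_f2fe1e_co
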