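import Pool.Agent.Lib.MP_f2fe1e_co.Defs

set_option autoImplicit false

namespace Pool.Agent.Lib.MP_f2fe1e_co

open SimpleGraph

/-- Leaves of the complete `m`-ary tree of depth `ℓ`. -/
def LV : ℕ → ℕ → Type
  | 0, _ => Unit
  | (ℓ + 1), m => Fin m × LV ℓ m

/-- The level at which two leaves branch (and `ℓ` for equal leaves). -/
def lev : (ℓ m : ℕ) → LV ℓ m → LV ℓ m → ℕ
  | 0, _, _, _ => 0
  | (ℓ + 1), m, x, y => if x.1 = y.1 then lev ℓ m x.2 y.2 + 1 else 0

lemma lev_self : ∀ (ℓ m : ℕ) (x : LV ℓ m), lev ℓ m x x = ℓ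
  | 0, _, _ => rfl
  | (ℓ + 1), m, x => by simp [lev, lev_self ℓ m]

lemma lev_symm : ∀ (ℓ m : ℕ) (x y : LV ℓ m), lev ℓ m x y = lev ℓ m y x
  | 0, _, _, _ => rfl
  | (ℓ + 1), m, x, y => by
    simp only [lev]
    rw [lev_symm ℓ m x.2 y.2]
    by_cases h : x.1 = y.1
    · rw [if_pos h, if_pos h.symm]
    · rw [if_neg h, if_neg (fun h' => h h'.symm)]

lemma lev_lt : ∀ (ℓ m : ℕ) (x y : LV ℓ m), x ≠ y → lev ℓ m x y < ℓ
  | 0, _, _, _, h => absurd rfl h
  | (ℓ + 1), m, x, y, h => by
    simp only [lev]
    split_ifs with h1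
    · have : x.2 ≠ y.2 := fun h2 => h (Prod.ext h1 h2)
      have := lev_lt ℓ m x.2 y.2 this
      omega
    · omega

/-- The graph on the leaves of the complete `m`-ary tree of depth `ℓ`, in which two leaves are
adjacent iff their branching level plus `s` is odd. -/
def LG (s ℓ m : ℕ) : SimpleGraph (LV ℓ m) where
  Adj x y := x ≠ y ∧ Odd (lev ℓ m x y + s)
  symm := ⟨fun x y h => ⟨h.1.symm, by rw [lev_symm]; exact h.2⟩⟩
  loopless := ⟨fun _ h => h.1 rfl⟩

instance instFiniteLV : ∀ (ℓ m : ℕ), Finite (LV ℓ m)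
  | 0, _ => inferInstanceAs (Finite Unit)
  | (ℓ + 1), m =>
    have := instFiniteLV ℓ m
    inferInstanceAs (Finite (Fin m × LV ℓ m))

lemma LG_compl (ℓ m : ℕ) : (LG 0 ℓ m)ᶜ = LG 1 ℓ m := by
  ext x y
  simp only [LG, compl_adj]
  constructor
  · rintro ⟨h1, h2⟩
    refine ⟨h1, ?_⟩
    have : ¬ Odd (lev ℓ m x y) := fun h => h2 ⟨h1, h⟩
    rw [Nat.not_odd_iff_even] at this
    exact this.add_one
  · rintro ⟨h1, h2⟩
    refine ⟨h1, fun h => ?_⟩
    have h3 := h.2
    rw [Nat.add_zero] at h3
    rw [Nat.odd_add_one] at h2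
    exact h2 h3

/-! ### the tree -/

section Tree

/-- Length of the longest common prefix. -/
def lcp {α : Type} [DecidableEq α] : List α → List α → ℕ
  | (a :: x), (b :: y) => if a = b then lcp x y + 1 else 0
  | _, _ => 0

variable {α : Type} [DecidableEq α]

lemma lcp_le_left : ∀ x y : List α, lcp x y ≤ x.length
  | [], _ => by simp [lcp]
  | (a :: x), [] => by simp [lcp]
  | (a :: x), (b :: y) => by
    simp only [lcp, List.length_cons]
    split_ifs
    · have := lcp_le_left x y; omega
    · omega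

lemma lcp_comm : ∀ x y : List α, lcp x y = lcp y x
  | [], [] => by simp [lcp]
  | [], (b :: y) => by simp [lcp]
  | (a :: x), [] => by simp [lcp]
  | (a :: x), (b :: y) => by
    simp only [lcp]
    rw [lcp_comm x y]
    by_cases h : a = b
    · rw [if_pos h, if_pos h.symm]
    · rw [if_neg h, if_neg (fun h' => h h'.symm)]

lemma lcp_self : ∀ x : List α, lcp x x = x.length
  | [] => by simp [lcp]
  | (a :: x) => by simp [lcp, lcp_self x]

lemma lcp_dropLast : ∀ x y : List α, lcp x.dropLast y = min (lcp x y) (x.length - 1)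
  | [], y => by simp [lcp]
  | [a], y => by
    cases y <;> simp [lcp]
  | (a :: a' :: x), [] => by simp [lcp]
  | (a :: a' :: x), (b :: y) => by
    have := lcp_dropLast (a' :: x) y
    rw [List.dropLast_cons_of_ne_nil (by simp)]
    simp only [lcp]
    split_ifs with h
    · rw [this]
      simp only [List.length_cons]
      omega
    · simp

lemma take_lcp : ∀ x y : List α, x.take (lcp x y) = y.take (lcp x y)
  | [], [] => by simp [lcp]
  | [], (b :: y) => by simp [lcp]
  | (a :: x), [] => by simp [lcp]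
  | (a :: x), (b :: y) => by
    simp only [lcp]
    split_ifs with h
    · subst h
      simp [take_lcp x y]
    · simp

end Tree

section ParentTree

variable {V : Type}

/-- The graph given by a parent function on the non-root vertices. -/
def parentGraph (r : V) (p : V → V) : SimpleGraph V :=
  SimpleGraph.fromRel (fun u v => u ≠ r ∧ p u = v)

lemma height_iterate_le {r : V} {p : V → V} {h : V → ℕ} (hr : p r = r)
    (hp : ∀ v, v ≠ r → h (p v) < h v) (k : ℕ) (v : V) : h (p^[k] v) ≤ h v := by
  induction k generalizing v with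
  | zero => simp
  | succ k ih =>
    rw [Function.iterate_succ_apply]
    refine (ih (p v)).trans ?_
    by_cases hv : v = r
    · subst hv; rw [hr]
    · exact (hp v hv).le

lemma parentGraph_isTree (r : V) (p : V → V) (h : V → ℕ) (hr : p r = r)
    (hp : ∀ v, v ≠ r → h (p v) < h v) : (parentGraph r p).IsTree := by
  have hreach : ∀ n (v : V), h v = n → (parentGraph r p).Reachable v r := by
    intro n
    induction n using Nat.strong_induction_on with
    | _ n ih =>
      intro v hv
      by_cases hvr : v = r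
      · subst hvr; exact SimpleGraph.Reachable.refl _
      · have h1 := hp v hvr
        have hne : v ≠ p v := by
          intro he; rw [← he] at h1; exact lt_irrefl _ h1
        have hadj : (parentGraph r p).Adj v (p v) := by
          simp only [parentGraph, SimpleGraph.fromRel_adj]
          exact ⟨hne, Or.inl ⟨hvr, trivial⟩⟩
        exact hadj.reachable.trans (ih (h (p v)) (hv ▸ h1) (p v) rfl)
  have hconn : (parentGraph r p).Connected := by
    have : Nonempty V := ⟨r⟩
    exact SimpleGraph.Connected.mk (fun u v => (hreach _ u rfl).trans (hreach _ v rfl).symm)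
  refine ⟨hconn, ?_⟩
  rw [SimpleGraph.isAcyclic_iff_forall_adj_isBridge]
  -- it suffices to treat the edge from a vertex to its parent
  have key : ∀ v, v ≠ r → (parentGraph r p).IsBridge s(v, p v) := by
    intro v hv
    rw [SimpleGraph.isBridge_iff]
    intro hre
    have hstep : ∀ (u w : V), ((parentGraph r p) \ SimpleGraph.fromEdgeSet {s(v, p v)}).Adj u w →
        (∃ k, p^[k] u = v) → ∃ k, p^[k] w = v := by
      rintro u w huw ⟨k, hk⟩
      rw [SimpleGraph.sdiff_adj] at huw
      obtain ⟨huw1, huw2⟩ := huw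
      simp only [parentGraph, SimpleGraph.fromRel_adj] at huw1
      rcases huw1.2 with ⟨hur, hpu⟩ | ⟨hwr, hpw⟩
      · cases k with
        | zero =>
          exfalso
          simp only [Function.iterate_zero, id_eq] at hk
          subst hk
          subst hpu
          apply huw2
          simp only [SimpleGraph.fromEdgeSet_adj, Set.mem_singleton_iff]
          exact ⟨trivial, huw1.1⟩
        | succ k =>
          rw [Function.iterate_succ_apply, hpu] at hk
          exact ⟨k, hk⟩
      · exact ⟨k + 1, by rw [Function.iterate_succ_apply, hpw, hk]⟩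
    have hwalk : ∀ (u w : V), ((parentGraph r p) \ SimpleGraph.fromEdgeSet {s(v, p v)}).Reachable u w →
        (∃ k, p^[k] u = v) → ∃ k, p^[k] w = v := by
      rintro u w ⟨q⟩
      induction q with
      | nil => exact id
      | cons hadj _ ih => exact fun hu => ih (hstep _ _ hadj hu)
    obtain ⟨k, hk⟩ := hwalk v (p v) hre ⟨0, rfl⟩
    have h1 := height_iterate_le (h := h) hr hp k (p v)
    rw [hk] at h1
    exact absurd (hp v hv) (not_lt.mpr h1)
  intro u w huw
  simp only [parentGraph, SimpleGraph.fromRel_adj] at huw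
  rcases huw.2 with ⟨hur, hpu⟩ | ⟨hwr, hpw⟩
  · rw [← hpu]; exact key u hur
  · rw [← hpw, Sym2.eq_swap]; exact key w hwr

end ParentTree

section WordTree

variable (ℓ m : ℕ)

/-- Words of length at most `ℓ`. -/
abbrev Nd : Type := {l : List (Fin m) // l.length ≤ ℓ}

def ndRoot : Nd ℓ m := ⟨[], by simp⟩

def ndPar (x : Nd ℓ m) : Nd ℓ m := ⟨x.1.dropLast, by simp; have := x.2; omega⟩

def wordTree : SimpleGraph (Nd ℓ m) := parentGraph (ndRoot ℓ m) (ndPar ℓ m)

variable {ℓ m}

lemma ne_root_iff (x : Nd ℓ m) : x ≠ ndRoot ℓ m ↔ x.1 ≠ [] := by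
  unfold ndRoot
  rw [ne_eq, Subtype.ext_iff]

lemma wordTree_isTree : (wordTree ℓ m).IsTree := by
  refine parentGraph_isTree _ _ (fun x => x.1.length) ?_ ?_
  · simp [ndPar, ndRoot]
  · intro v hv
    rw [ne_root_iff] at hv
    have : 0 < v.1.length := List.length_pos_iff.mpr hv
    simp only [ndPar, List.length_dropLast]
    omega

lemma wordTree_adj_iff (x y : Nd ℓ m) : (wordTree ℓ m).Adj x y ↔
    (x.1 ≠ [] ∧ x.1.dropLast = y.1) ∨ (y.1 ≠ [] ∧ y.1.dropLast = x.1) := by
  unfold wordTree parentGraph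
  rw [fromRel_adj, ne_root_iff, ne_root_iff]
  unfold ndPar
  rw [Subtype.ext_iff, Subtype.ext_iff]
  constructor
  · rintro ⟨_, h⟩; exact h
  · intro h
    refine ⟨?_, h⟩
    intro he
    rcases h with ⟨h1, h2⟩ | ⟨h1, h2⟩
    · have := congrArg List.length h2
      rw [List.length_dropLast, ← he] at this
      have := List.length_pos_iff.mpr h1
      omega
    · have := congrArg List.length h2
      rw [List.length_dropLast, he] at this
      have := List.length_pos_iff.mpr h1
      omega

/-- Lower bound for the length of a walk. -/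
lemma walk_length_ge {x y : Nd ℓ m} (p : (wordTree ℓ m).Walk x y) :
    x.1.length + y.1.length ≤ p.length + 2 * lcp x.1 y.1 := by
  induction p with
  | nil => rw [lcp_self]; simp; omega
  | @cons x x' y hadj p ih =>
    rw [wordTree_adj_iff] at hadj
    rw [Walk.length_cons]
    rcases hadj with ⟨h1, h2⟩ | ⟨h1, h2⟩
    · have h3 := lcp_dropLast x.1 y.1
      rw [h2] at h3
      have h4 := congrArg List.length h2
      rw [List.length_dropLast] at h4
      omega
    · have h3 := lcp_dropLast x'.1 y.1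
      rw [h2] at h3
      have h4 := congrArg List.length h2
      rw [List.length_dropLast] at h4
      have h5 := lcp_le_left x'.1 y.1
      have := List.length_pos_iff.mpr h1
      omega

/-- The walk up the tree. -/
lemma exists_walk_up (n : ℕ) : ∀ (x y : Nd ℓ m), y.1 = x.1.take (x.1.length - n) → n ≤ x.1.length →
    ∃ p : (wordTree ℓ m).Walk x y, p.length = n := by
  induction n with
  | zero =>
    intro x y h _
    have : x = y := Subtype.ext (by simpa using h.symm)
    subst this
    exact ⟨Walk.nil, rfl⟩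
  | succ n ih =>
    intro x y h hn
    have hx : x.1 ≠ [] := by
      intro h0; rw [h0] at hn; simp at hn
    have hadj : (wordTree ℓ m).Adj x (ndPar ℓ m x) := by
      rw [wordTree_adj_iff]; left; exact ⟨hx, rfl⟩
    obtain ⟨p, hp⟩ := ih (ndPar ℓ m x) y (by
      rw [h]
      simp only [ndPar, List.dropLast_eq_take, List.take_take, List.length_take]
      congr 1
      omega) (by simp only [ndPar, List.length_dropLast]; omega)
    exact ⟨Walk.cons hadj p, by rw [Walk.length_cons, hp]⟩

lemma exists_walk (x y : Nd ℓ m) :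
    ∃ p : (wordTree ℓ m).Walk x y, p.length + 2 * lcp x.1 y.1 = x.1.length + y.1.length := by
  have hx := lcp_le_left x.1 y.1
  have hy : lcp x.1 y.1 ≤ y.1.length := by rw [lcp_comm]; exact lcp_le_left _ _
  obtain ⟨p, hp⟩ := exists_walk_up (x.1.length - lcp x.1 y.1) x
    ⟨x.1.take (lcp x.1 y.1), by rw [List.length_take]; have := x.2; omega⟩
    (by simp only; congr 1; omega) (by omega)
  obtain ⟨q, hq⟩ := exists_walk_up (y.1.length - lcp x.1 y.1) y
    ⟨x.1.take (lcp x.1 y.1), by rw [List.length_take]; have := x.2; omega⟩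
    (by simp only; rw [take_lcp]; congr 1; omega) (by omega)
  refine ⟨p.append q.reverse, ?_⟩
  rw [Walk.length_append, Walk.length_reverse, hp, hq]
  omega

/-- The length of the path between two words. -/
lemma path_length {x y : Nd ℓ m} (p : (wordTree ℓ m).Walk x y) (hp : p.IsPath) :
    p.length + 2 * lcp x.1 y.1 = x.1.length + y.1.length := by
  classical
  obtain ⟨q, hq⟩ := exists_walk x y
  have h1 : q.bypass = p := by
    have := (wordTree_isTree.isAcyclic.subsingleton_path x y).elim
      ⟨q.bypass, q.bypass_isPath⟩ ⟨p, hp⟩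
    exact congrArg Subtype.val this
  have h2 := q.length_bypass_le_length
  rw [h1] at h2
  have h3 := walk_length_ge p
  omega

/-- The word of a leaf. -/
def toWord : (ℓ m : ℕ) → LV ℓ m → List (Fin m)
  | 0, _, _ => []
  | (ℓ + 1), m, x => x.1 :: toWord ℓ m x.2

lemma length_toWord : ∀ (ℓ m : ℕ) (x : LV ℓ m), (toWord ℓ m x).length = ℓ
  | 0, _, _ => rfl
  | (ℓ + 1), m, x => by simp [toWord, length_toWord ℓ m x.2]

lemma toWord_injective : ∀ (ℓ m : ℕ), Function.Injective (toWord ℓ m)
  | 0, _ => fun _ _ _ => rfl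
  | (ℓ + 1), m => by
    intro x y h
    simp only [toWord, List.cons.injEq] at h
    exact Prod.ext h.1 (toWord_injective ℓ m h.2)

lemma toWord_surj : ∀ (ℓ m : ℕ) (l : List (Fin m)), l.length = ℓ → ∃ x, toWord ℓ m x = l
  | 0, _, l, h => ⟨(), by rw [List.length_eq_zero_iff] at h; rw [h]; rfl⟩
  | (ℓ + 1), m, [], h => by simp at h
  | (ℓ + 1), m, (a :: l), h => by
    obtain ⟨x, hx⟩ := toWord_surj ℓ m l (by simpa using h)
    exact ⟨(a, x), by simp only [toWord]; rw [hx]⟩

lemma lcp_toWord : ∀ (ℓ m : ℕ) (x y : LV ℓ m), lcp (toWord ℓ m x) (toWord ℓ m y) = lev ℓ m x y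
  | 0, _, _, _ => rfl
  | (ℓ + 1), m, x, y => by
    simp only [toWord, lcp, lev, lcp_toWord ℓ m x.2 y.2]

/-- A node is a leaf of the word tree iff it has full length. -/
lemma isLeaf_iff (hℓ : 1 ≤ ℓ) (hm : 2 ≤ m) (x : Nd ℓ m) :
    (∃! y, (wordTree ℓ m).Adj x y) ↔ x.1.length = ℓ := by
  constructor
  · rintro ⟨y, -, hy⟩
    by_contra hne
    have hlt : x.1.length < ℓ := lt_of_le_of_ne x.2 hne
    have h1 : ∀ a : Fin m, (wordTree ℓ m).Adj x ⟨x.1 ++ [a], by simp; omega⟩ := by
      intro a
      rw [wordTree_adj_iff]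
      right
      exact ⟨by simp, by simp⟩
    have h2 := (hy _ (h1 ⟨0, by omega⟩)).trans (hy _ (h1 ⟨1, by omega⟩)).symm
    rw [Subtype.ext_iff] at h2
    simp at h2
  · intro h
    refine ⟨ndPar ℓ m x, ?_, ?_⟩
    · simp only
      rw [wordTree_adj_iff]
      left
      refine ⟨?_, rfl⟩
      intro h0; rw [h0] at h; simp at h; omega
    · intro y hy
      rw [wordTree_adj_iff] at hy
      rcases hy with ⟨_, h2⟩ | ⟨h1, h2⟩
      · exact Subtype.ext h2.symm
      · exfalso
        have := congrArg List.length h2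
        rw [List.length_dropLast] at this
        have := List.length_pos_iff.mpr h1
        have := y.2
        omega

/-- The complete `m`-ary tree of depth `ℓ` with unit weights. -/
noncomputable def levelTree (ℓ m : ℕ) (hℓ : 1 ≤ ℓ) (hm : 2 ≤ m) : LeafTree (LV ℓ m) where
  Node := Nd ℓ m
  finite := (List.finite_length_le (Fin m) ℓ).to_subtype
  T := wordTree ℓ m
  isTree := wordTree_isTree
  w := fun _ => 1
  w_nonneg := fun _ => zero_le_one
  leaf := fun x => ⟨toWord ℓ m x, (length_toWord ℓ m x).le⟩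
  leaf_injective := fun x y h => toWord_injective ℓ m (congrArg Subtype.val h)
  range_leaf := by
    ext x
    rw [Set.mem_ofPred_eq, isLeaf_iff hℓ hm]
    constructor
    · rintro ⟨y, rfl⟩
      exact length_toWord ℓ m y
    · intro h
      obtain ⟨y, hy⟩ := toWord_surj ℓ m x.1 h
      exact ⟨y, Subtype.ext hy⟩

lemma levelTree_dist (ℓ m : ℕ) (hℓ : 1 ≤ ℓ) (hm : 2 ≤ m) (x y : LV ℓ m) :
    (levelTree ℓ m hℓ hm).dist x y = 2 * ((ℓ : ℝ) - lev ℓ m x y) := by
  unfold LeafTree.dist
  obtain ⟨hp, -⟩ := ((levelTree ℓ m hℓ hm).isTree.existsUnique_path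
    ((levelTree ℓ m hℓ hm).leaf x) ((levelTree ℓ m hℓ hm).leaf y)).choose_spec
  set p := ((levelTree ℓ m hℓ hm).isTree.existsUnique_path
    ((levelTree ℓ m hℓ hm).leaf x) ((levelTree ℓ m hℓ hm).leaf y)).choose with hpdef
  have h1 : (p.edges.map (levelTree ℓ m hℓ hm).w).sum = p.length := by
    have : (levelTree ℓ m hℓ hm).w = fun _ => 1 := rfl
    rw [this, List.map_const', List.sum_replicate, Walk.length_edges]
    simp
  have h2 : p.length + 2 * lcp (toWord ℓ m x) (toWord ℓ m y) =
      (toWord ℓ m x).length + (toWord ℓ m y).length := path_length (ℓ := ℓ) (m := m) p hp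
  rw [lcp_toWord, length_toWord, length_toWord] at h2
  rw [h1]
  have h3 : ((p.length + 2 * lev ℓ m x y : ℕ) : ℝ) = ((ℓ + ℓ : ℕ) : ℝ) := by exact_mod_cast h2
  push_cast at h3
  linarith

end WordTree

end Pool.Agent.Lib.MP_f2fe1e_co
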