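import Pool.Agent.Lib.MP_f2fe1e_co.Pigeonhole

set_option autoImplicit false

namespace Pool.Agent.Lib.MP_f2fe1e_co

/-- Abstract version of OR-`k`-PCG. -/
def OrRep (k : ℕ) {V : Type} (G : SimpleGraph V) : Prop :=
  ∃ (d : Fin k → V → V → ℝ) (I : Fin k → Set ℝ), (∀ i, Quad (d i)) ∧
    (∀ i, (I i).OrdConnected) ∧ ∀ u v, u ≠ v → (G.Adj u v ↔ ∃ i, d i u v ∈ I i)

/-- Abstract version of AND-`k`-PCG. -/
def AndRep (k : ℕ) {V : Type} (G : SimpleGraph V) : Prop :=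
  ∃ (d : Fin k → V → V → ℝ) (I : Fin k → Set ℝ), (∀ i, Quad (d i)) ∧
    (∀ i, (I i).OrdConnected) ∧ ∀ u v, u ≠ v → (G.Adj u v ↔ ∀ i, d i u v ∈ I i)

lemma OrPCG.orRep {k : ℕ} {V : Type} {G : SimpleGraph V} (h : OrPCG k G) : OrRep k G := by
  obtain ⟨L, I, hI, h⟩ := h
  exact ⟨fun i => (L i).dist, I, fun i => (L i).quad, fun i => (hI i).2.1, h⟩

lemma AndPCG.andRep {k : ℕ} {V : Type} {G : SimpleGraph V} (h : AndPCG k G) : AndRep k G := by
  obtain ⟨L, I, hI, h⟩ := h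
  exact ⟨fun i => (L i).dist, I, fun i => (L i).quad, fun i => (hI i).2.1, h⟩

lemma Quad.false {V : Type} {d : V → V → ℝ} (h : Quad d) {x y z t : V} (h1 : d x z < d x y)
    (h2 : d y t < d z t) (h3 : d x t < d x y) (h4 : d y z < d z t) : False := by
  have := h.quad x y z t
  rcases le_max_iff.mp this with h5 | h5 <;> linarith

lemma Quad.comp {V W : Type} {d : V → V → ℝ} (h : Quad d) (f : W → V) :
    Quad (fun x y => d (f x) (f y)) :=
  ⟨fun _ _ => h.symm _ _, fun _ _ _ _ => h.quad _ _ _ _⟩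

lemma high_or_low {I : Set ℝ} (hI : I.OrdConnected) {a : ℝ} (ha : a ∉ I) :
    (∀ t ∈ I, t < a) ∨ (∀ t ∈ I, a < t) := by
  by_contra hcon
  push Not at hcon
  obtain ⟨⟨t, ht, h1⟩, ⟨t', ht', h2⟩⟩ := hcon
  exact ha (hI.out ht' ht ⟨h2, h1⟩)

lemma lev_zero_of_ne {ℓ M : ℕ} {a b : Fin M} (hab : a ≠ b) (x y : LV ℓ M) :
    lev (ℓ + 1) M (a, x) (b, y) = 0 := by
  simp only [lev]
  exact if_neg hab

lemma lev_succ {ℓ M : ℕ} (a : Fin M) (x y : LV ℓ M) :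
    lev (ℓ + 1) M (a, x) (a, y) = lev ℓ M x y + 1 := by
  simp only [lev]
  exact if_pos trivial

lemma pair_ne_left {ℓ M : ℕ} {a b : Fin M} (hab : a ≠ b) (x y : LV ℓ M) :
    ((a, x) : LV (ℓ + 1) M) ≠ (b, y) := fun h => hab (congrArg Prod.fst h)

lemma pair_ne_right {ℓ M : ℕ} (a : Fin M) {x y : LV ℓ M} (hxy : x ≠ y) :
    ((a, x) : LV (ℓ + 1) M) ≠ (a, y) := fun h => hxy (congrArg Prod.snd h)

lemma nonempty_LV : ∀ (ℓ m : ℕ), 1 ≤ m → Nonempty (LV ℓ m)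
  | 0, _, _ => ⟨()⟩
  | (ℓ + 1), m, h => by
    obtain ⟨x⟩ := nonempty_LV ℓ m h
    exact ⟨((⟨0, h⟩ : Fin m), x)⟩

lemma or_step (k ℓ s : ℕ) (hs : Odd s)
    (IH : ∃ M₀, ∀ M, M₀ ≤ M → ¬ OrRep k (LG (s + 2) ℓ M)) :
    ∃ M₀, ∀ M, M₀ ≤ M → ¬ OrRep (k + 1) (LG s (ℓ + 2) M) := by
  obtain ⟨M₁, hM₁⟩ := IH
  obtain ⟨M₂, hM₂⟩ := exists_const₂ (Fin (k + 1)) (ℓ + 1) (max M₁ 2)
  refine ⟨max M₂ 2, fun M hM => ?_⟩
  rintro ⟨d, I, hq, hI, hadj⟩
  have hM2 : 2 ≤ M := le_trans (le_max_right _ _) hM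
  set m' := max M₁ 2 with hm'
  have hm2 : 2 ≤ m' := le_max_right _ _
  set c0 : Fin M := ⟨0, by omega⟩ with hc0
  set c1 : Fin M := ⟨1, by omega⟩ with hc1
  have hc01 : c0 ≠ c1 := by
    intro h; rw [hc0, hc1, Fin.mk.injEq] at h; omega
  have hcross : ∀ x y : LV (ℓ + 1) M, ∃ i,
      d i ((c0, x) : LV (ℓ + 2) M) ((c1, y) : LV (ℓ + 2) M) ∈ I i := by
    intro x y
    refine (hadj _ _ (pair_ne_left hc01 x y)).mp ⟨pair_ne_left hc01 x y, ?_⟩
    rw [lev_zero_of_ne hc01, Nat.zero_add]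
    exact hs
  choose χ hχ using hcross
  obtain ⟨e₁, e₂, he₁, he₂, hc⟩ := hM₂ M (le_trans (le_max_left _ _) hM) χ
  obtain ⟨x₀⟩ := nonempty_LV (ℓ + 1) m' (by omega)
  set i := χ (e₁ x₀) (e₂ x₀) with hi
  have hcr : ∀ x y : LV (ℓ + 1) m',
      d i ((c0, e₁ x) : LV (ℓ + 2) M) ((c1, e₂ y) : LV (ℓ + 2) M) ∈ I i := by
    intro x y
    have := hχ (e₁ x) (e₂ y)
    rw [hc x y x₀ x₀] at this
    exact this
  -- one of the two copies has no high pairs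
  obtain ⟨g, hglev, hghigh⟩ : ∃ g : LV (ℓ + 1) m' → LV (ℓ + 2) M,
      (∀ x y, lev (ℓ + 2) M (g x) (g y) = lev (ℓ + 1) m' x y + 1) ∧
      (∀ x y, ¬ ∀ t ∈ I i, t < d i (g x) (g y)) := by
    by_cases hcase : ∃ x y : LV (ℓ + 1) m', ∀ t ∈ I i,
        t < d i ((c0, e₁ x) : LV (ℓ + 2) M) ((c0, e₁ y) : LV (ℓ + 2) M)
    · obtain ⟨x, y, hxy⟩ := hcase
      refine ⟨fun x => (c1, e₂ x), ?_, ?_⟩
      · intro x y
        rw [lev_succ, he₂]
      · intro x' y' hxy'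
        have hsym := (hq i).symm
        exact (hq i).false (x := (c0, e₁ x)) (y := (c0, e₁ y)) (z := (c1, e₂ x'))
          (t := (c1, e₂ y')) (hxy _ (hcr x x')) (hxy' _ (hcr y y')) (hxy _ (hcr x y'))
          (hxy' _ (hcr y x'))
    · push Not at hcase
      refine ⟨fun x => (c0, e₁ x), ?_, ?_⟩
      · intro x y
        rw [lev_succ, he₁]
      · intro x y hxy
        obtain ⟨t, ht, hle⟩ := hcase x y
        exact absurd (hxy t ht) (not_lt.mpr hle)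
  set b0 : Fin m' := ⟨0, by omega⟩ with hb0
  set b1 : Fin m' := ⟨1, by omega⟩ with hb1
  have hb01 : b0 ≠ b1 := by
    intro h; rw [hb0, hb1, Fin.mk.injEq] at h; omega
  have hginj : ∀ x y, x ≠ y → g x ≠ g y := by
    intro x y hxy h
    have h1 := hglev x y
    rw [h, lev_self] at h1
    have := lev_lt _ _ _ _ hxy
    omega
  -- cross pairs between the subcopies are low
  have hlow : ∀ x y : LV ℓ m', ∀ t ∈ I i,
      d i (g ((b0, x) : LV (ℓ + 1) m')) (g ((b1, y) : LV (ℓ + 1) m')) < t := by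
    intro x y
    have hne := hginj _ _ (pair_ne_left hb01 x y)
    have hnot : d i (g ((b0, x) : LV (ℓ + 1) m')) (g ((b1, y) : LV (ℓ + 1) m')) ∉ I i := by
      intro hmem
      have h1 := ((hadj _ _ hne).mpr ⟨i, hmem⟩).2
      rw [hglev, lev_zero_of_ne hb01, Nat.zero_add, Nat.add_comm] at h1
      rw [Nat.odd_add_one] at h1
      exact h1 hs
    rcases high_or_low (hI i) hnot with h | h
    · exact absurd h (hghigh _ _)
    · exact h
  -- one of the two subcopies has no pairs in the interval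
  obtain ⟨h, hhlev, hhI⟩ : ∃ h : LV ℓ m' → LV (ℓ + 2) M,
      (∀ x y, lev (ℓ + 2) M (h x) (h y) = lev ℓ m' x y + 2) ∧
      (∀ x y, d i (h x) (h y) ∉ I i) := by
    by_cases hcase : ∃ x y : LV ℓ m',
        d i (g ((b0, x) : LV (ℓ + 1) m')) (g ((b0, y) : LV (ℓ + 1) m')) ∈ I i
    · obtain ⟨x, y, hxy⟩ := hcase
      refine ⟨fun x => g (b1, x), ?_, ?_⟩
      · intro x y
        rw [hglev, lev_succ]
      · intro x' y' hxy'
        exact (hq i).false (x := g (b0, x)) (y := g (b0, y)) (z := g (b1, x'))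
          (t := g (b1, y')) (hlow x x' _ hxy) (hlow y y' _ hxy') (hlow x y' _ hxy)
          (hlow y x' _ hxy')
    · push Not at hcase
      refine ⟨fun x => g (b0, x), ?_, hcase⟩
      intro x y
      rw [hglev, lev_succ]
  refine hM₁ m' (le_max_left _ _) ⟨fun j x y => d (i.succAbove j) (h x) (h y),
    fun j => I (i.succAbove j), fun j => (hq _).comp h, fun j => hI _, ?_⟩
  intro x y hxy
  have hne : h x ≠ h y := by
    intro he
    have h1 := hhlev x y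
    rw [he, lev_self] at h1
    have := lev_lt _ _ _ _ hxy
    omega
  have h1 : (LG (s + 2) ℓ m').Adj x y ↔ (LG s (ℓ + 2) M).Adj (h x) (h y) := by
    simp only [LG]
    rw [hhlev]
    have : lev ℓ m' x y + 2 + s = lev ℓ m' x y + (s + 2) := by ring
    rw [this]
    exact ⟨fun h => ⟨hne, h.2⟩, fun h => ⟨hxy, h.2⟩⟩
  rw [h1, hadj _ _ hne]
  constructor
  · rintro ⟨i', hi'⟩
    have hii' : i' ≠ i := by
      rintro rfl; exact hhI x y hi'
    obtain ⟨j, rfl⟩ := Fin.exists_succAbove_eq hii'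
    exact ⟨j, hi'⟩
  · rintro ⟨j, hj⟩
    exact ⟨_, hj⟩

/-- The alternating cographs with an odd number of levels starting and ending with a join level
are not OR-`k`-PCGs. -/
theorem not_orRep : ∀ (k s : ℕ), Odd s → ∃ M₀, ∀ M, M₀ ≤ M → ¬ OrRep k (LG s (2 * k + 1) M)
  | 0, s, hs => by
    refine ⟨2, fun M hM => ?_⟩
    rintro ⟨d, I, -, -, hadj⟩
    have hne : (⟨0, by omega⟩ : Fin M) ≠ ⟨1, by omega⟩ := by
      intro h; rw [Fin.mk.injEq] at h; omega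
    have h1 : (LG s 1 M).Adj ((⟨0, by omega⟩ : Fin M), ()) ((⟨1, by omega⟩ : Fin M), ()) := by
      refine ⟨pair_ne_left (ℓ := 0) hne () (), ?_⟩
      rw [lev_zero_of_ne hne, Nat.zero_add]
      exact hs
    obtain ⟨i, -⟩ := (hadj _ _ h1.1).mp h1
    exact i.elim0
  | (k + 1), s, hs => or_step k (2 * k + 1) s hs (not_orRep k (s + 2) (by
      rw [Nat.odd_add]; exact ⟨fun _ => even_two, fun _ => hs⟩))

theorem not_andRep (k : ℕ) : ∃ M₀, ∀ M, M₀ ≤ M → ¬ AndRep k (LG 1 3 M) := by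
  obtain ⟨M₂, hM₂⟩ := exists_const₂ (Fin k) 1 2
  refine ⟨max M₂ (k + 2), fun M hM => ?_⟩
  rintro ⟨d, I, hq, hI, hadj⟩
  have hMk : k + 2 ≤ M := le_trans (le_max_right _ _) hM
  -- a copy without high pairs
  obtain ⟨a, ha⟩ : ∃ a : Fin M, ∀ i, ∀ x y : LV 2 M,
      ¬ ∀ t ∈ I i, t < d i ((a, x) : LV 3 M) ((a, y) : LV 3 M) := by
    by_contra hcon
    push Not at hcon
    choose i x y hxy using hcon
    obtain ⟨a, b, hab, hiab⟩ := Fintype.exists_ne_map_eq_of_card_lt i (by simp; omega)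
    have hcr : ∀ x y : LV 2 M, d (i a) ((a, x) : LV 3 M) ((b, y) : LV 3 M) ∈ I (i a) := by
      intro x y
      refine (hadj _ _ (pair_ne_left hab x y)).mp ⟨pair_ne_left hab x y, ?_⟩ (i a)
      rw [lev_zero_of_ne hab]
      exact odd_one
    have h1 := hxy a
    have h2 := hxy b
    rw [← hiab] at h2
    exact (hq (i a)).false (x := (a, x a)) (y := (a, y a)) (z := (b, x b)) (t := (b, y b))
      (h1 _ (hcr _ _)) (h2 _ (hcr _ _)) (h1 _ (hcr _ _)) (h2 _ (hcr _ _))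
  set c0 : Fin M := ⟨0, by omega⟩ with hc0
  set c1 : Fin M := ⟨1, by omega⟩ with hc1
  have hc01 : c0 ≠ c1 := by
    intro h; rw [hc0, hc1, Fin.mk.injEq] at h; omega
  have hcross : ∀ x y : LV 1 M, ∃ i,
      d i ((a, (c0, x)) : LV 3 M) ((a, (c1, y)) : LV 3 M) ∉ I i := by
    intro x y
    by_contra hcon
    push Not at hcon
    have hne : ((a, ((c0, x) : LV 2 M)) : LV 3 M) ≠ (a, ((c1, y) : LV 2 M)) :=
      pair_ne_right (ℓ := 2) a (pair_ne_left (ℓ := 1) hc01 x y)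
    have h1 := ((hadj _ _ hne).mpr hcon).2
    have h2 : lev 3 M ((a, ((c0, x) : LV 2 M)) : LV 3 M) (a, ((c1, y) : LV 2 M)) = 1 :=
      (lev_succ (ℓ := 2) a (c0, x) (c1, y)).trans
        (congrArg (· + 1) (lev_zero_of_ne (ℓ := 1) hc01 x y))
    have h3 : Odd (1 + 1) := Eq.mp (congrArg (fun n => Odd (n + 1)) h2) h1
    exact absurd h3 (by decide)
  choose χ hχ using hcross
  obtain ⟨e₁, e₂, he₁, he₂, hc⟩ := hM₂ M (le_trans (le_max_left _ _) hM) χ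
  set x₀ : LV 1 2 := ((0 : Fin 2), ()) with hx₀
  set x₁ : LV 1 2 := ((1 : Fin 2), ()) with hx₁
  have h01 : (0 : Fin 2) ≠ 1 := by decide
  have hx01 : x₀ ≠ x₁ := pair_ne_left (ℓ := 0) h01 () ()
  set i := χ (e₁ x₀) (e₂ x₀) with hi
  have hlow : ∀ x y : LV 1 2, ∀ t ∈ I i,
      d i ((a, (c0, e₁ x)) : LV 3 M) ((a, (c1, e₂ y)) : LV 3 M) < t := by
    intro x y
    have h1 := hχ (e₁ x) (e₂ y)
    rw [hc x y x₀ x₀, ← hi] at h1
    rcases high_or_low (hI i) h1 with h | h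
    · exact absurd h (ha i _ _)
    · exact h
  have hin : ∀ (c : Fin M) (e : LV 1 2 → LV 1 M), IsLevEmb e →
      d i ((a, (c, e x₀)) : LV 3 M) ((a, (c, e x₁)) : LV 3 M) ∈ I i := by
    intro c e he
    have hne : e x₀ ≠ e x₁ := fun h => hx01 (he.injective h)
    have hne' : ((a, ((c, e x₀) : LV 2 M)) : LV 3 M) ≠ (a, ((c, e x₁) : LV 2 M)) :=
      pair_ne_right (ℓ := 2) a (pair_ne_right (ℓ := 1) c hne)
    refine (hadj _ _ hne').mp ⟨hne', ?_⟩ i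
    have h3 : lev 1 M (e x₀) (e x₁) = 0 := by
      rw [he]
      exact lev_zero_of_ne (ℓ := 0) h01 () ()
    have h2 : lev 3 M ((a, ((c, e x₀) : LV 2 M)) : LV 3 M) (a, ((c, e x₁) : LV 2 M)) = 2 :=
      (lev_succ (ℓ := 2) a (c, e x₀) (c, e x₁)).trans
        (congrArg (· + 1) ((lev_succ (ℓ := 1) c (e x₀) (e x₁)).trans (congrArg (· + 1) h3)))
    have h4 : Odd (2 + 1) := by decide
    exact Eq.mpr (congrArg (fun n => Odd (n + 1)) h2) h4
  exact (hq i).false (x := (a, (c0, e₁ x₀))) (y := (a, (c0, e₁ x₁))) (z := (a, (c1, e₂ x₀)))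
    (t := (a, (c1, e₂ x₁))) (hlow _ _ _ (hin c0 e₁ he₁)) (hlow _ _ _ (hin c1 e₂ he₂))
    (hlow _ _ _ (hin c0 e₁ he₁)) (hlow _ _ _ (hin c1 e₂ he₂))

end Pool.Agent.Lib.MP_f2fe1e_co
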