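import Pool.Agent.Lib.MP_f2fe1e_co.Defs

set_option autoImplicit false

namespace Pool.Agent.Lib.MP_f2fe1e_co

open SimpleGraph

section Sides

variable {N : Type} {T : SimpleGraph N}

/-- `u` and `v` are on the same side of the edge `e`. -/
def SameSide (T : SimpleGraph N) (e : Sym2 N) (u v : N) : Prop :=
  (T \ fromEdgeSet {e}).Reachable u v

lemma sameSide_iff (e : Sym2 N) (u v : N) :
    SameSide T e u v ↔ ∃ p : T.Walk u v, e ∉ p.edges := by
  unfold SameSide
  constructor
  · rintro ⟨p⟩
    refine ⟨p.mapLe sdiff_le, ?_⟩
    rw [Walk.edges_mapLe_eq_edges]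
    intro he
    have := p.edges_subset_edgeSet he
    simp [edgeSet_sdiff] at this
  · rintro ⟨p, hp⟩
    refine ⟨p.transfer _ ?_⟩
    intro e' he'
    rw [edgeSet_sdiff]
    refine ⟨p.edges_subset_edgeSet he', ?_⟩
    rw [edgeSet_fromEdgeSet]
    rintro ⟨h1, _⟩
    rw [Set.mem_singleton_iff] at h1
    exact hp (h1 ▸ he')

lemma SameSide.refl {T : SimpleGraph N} (e : Sym2 N) (u : N) : SameSide T e u u :=
  Reachable.refl _
lemma SameSide.symm {e : Sym2 N} {u v : N} (h : SameSide T e u v) : SameSide T e v u :=
  Reachable.symm h
lemma SameSide.trans {e : Sym2 N} {u v w : N} (h : SameSide T e u v) (h' : SameSide T e v w) :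
    SameSide T e u w := Reachable.trans h h'

/-- Removing an edge from a connected graph leaves at most two sides. -/
lemma side_cases (hT : T.Connected) (a b : N) (u : N) :
    SameSide T s(a, b) u a ∨ SameSide T s(a, b) u b := by
  obtain ⟨p⟩ := hT.preconnected u a
  suffices H : ∀ (x y : N), T.Walk x y → y = a → (SameSide T s(a, b) x a ∨ SameSide T s(a, b) x b)
    from H u a p rfl
  intro x y q
  induction q with
  | nil => rintro rfl; left; exact SameSide.refl _ _
  | @cons x y z hadj q ih =>
    intro hz
    have := ih hz
    by_cases he : s(x, y) = s(a, b)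
    · rw [Sym2.eq_iff] at he
      rcases he with ⟨rfl, rfl⟩ | ⟨rfl, rfl⟩
      · left; exact SameSide.refl _ _
      · right; exact SameSide.refl _ _
    · have h1 : SameSide T s(a, b) x y := by
        rw [sameSide_iff]
        refine ⟨Walk.cons hadj Walk.nil, ?_⟩
        intro hmem
        rw [Walk.edges_cons, Walk.edges_nil, List.mem_singleton] at hmem
        exact he hmem.symm
      rcases this with h | h
      · left; exact h1.trans h
      · right; exact h1.trans h

lemma three_sides (hT : T.Connected) (e : Sym2 N) (u v w : N) :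
    SameSide T e u v ∨ SameSide T e v w ∨ SameSide T e u w := by
  induction e using Sym2.ind with
  | _ a b =>
  rcases side_cases hT a b u with h1 | h1 <;> rcases side_cases hT a b v with h2 | h2 <;>
    rcases side_cases hT a b w with h3 | h3
  · left; exact h1.trans h2.symm
  · left; exact h1.trans h2.symm
  · right; right; exact h1.trans h3.symm
  · right; left; exact h2.trans h3.symm
  · right; left; exact h2.trans h3.symm
  · right; right; exact h1.trans h3.symm
  · left; exact h1.trans h2.symm
  · left; exact h1.trans h2.symm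

/-- The unique path of a tree uses exactly the edges separating its ends. -/
lemma mem_path_edges_iff (hT : T.IsTree) {u v : N} (p : T.Walk u v) (hp : p.IsPath)
    (e : Sym2 N) : e ∈ p.edges ↔ ¬ SameSide T e u v := by
  classical
  rw [sameSide_iff]
  constructor
  · rintro he ⟨q, hq⟩
    have h1 : q.bypass = p := by
      have := (hT.isAcyclic.subsingleton_path u v).elim ⟨q.bypass, q.bypass_isPath⟩ ⟨p, hp⟩
      exact congrArg Subtype.val this
    rw [← h1] at he
    exact hq (Walk.edges_bypass_subset_edges _ he)
  · intro h
    by_contra he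
    exact h ⟨p, he⟩

/-- Two edges cannot split four vertices in two different balanced ways. -/
lemma no_cross {e e' : Sym2 N} {x y z t : N}
    (h1 : SameSide T e x z) (h2 : SameSide T e y t) (h3 : ¬ SameSide T e x y)
    (h4 : ¬ SameSide T e' x z) (h5 : ¬ SameSide T e' y t) : False := by
  classical
  obtain ⟨p, hp⟩ := (sameSide_iff _ _ _).mp h1
  obtain ⟨q, hq⟩ := (sameSide_iff _ _ _).mp h2
  have hp' : e' ∈ p.edges := by
    by_contra h
    exact h4 ((sameSide_iff _ _ _).mpr ⟨p, h⟩)
  have hq' : e' ∈ q.edges := by
    by_contra h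
    exact h5 ((sameSide_iff _ _ _).mpr ⟨q, h⟩)
  induction e' using Sym2.ind with
  | _ a b =>
  have ha : a ∈ p.support := Walk.fst_mem_support_of_mem_edges p hp'
  have ha' : a ∈ q.support := Walk.fst_mem_support_of_mem_edges q hq'
  have h6 : SameSide T e x a := by
    rw [sameSide_iff]
    exact ⟨p.takeUntil a ha, fun h => hp (p.edges_takeUntil_subset_edges ha h)⟩
  have h7 : SameSide T e y a := by
    rw [sameSide_iff]
    exact ⟨q.takeUntil a ha', fun h => hq (q.edges_takeUntil_subset_edges ha' h)⟩
  exact h3 (h6.trans h7.symm)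

end Sides

open Classical in
/-- The indicator that `e` separates `u` and `v`. -/
noncomputable def sep {N : Type} (T : SimpleGraph N) (e : Sym2 N) (u v : N) : ℝ :=
  if SameSide T e u v then 0 else 1

lemma LeafTree.dist_eq {V : Type} (L : LeafTree V) : ∃ S : Finset (Sym2 L.Node),
    ∀ u v, L.dist u v = ∑ e ∈ S, L.w e * sep L.T e (L.leaf u) (L.leaf v) := by
  classical
  have := L.finite
  have := Fintype.ofFinite L.Node
  refine ⟨Finset.univ, fun u v => ?_⟩
  unfold LeafTree.dist
  obtain ⟨hp, -⟩ := (L.isTree.existsUnique_path (L.leaf u) (L.leaf v)).choose_spec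
  set p := (L.isTree.existsUnique_path (L.leaf u) (L.leaf v)).choose with hpdef
  have hnd : p.edges.Nodup := hp.isTrail.edges_nodup
  rw [← List.sum_toFinset _ hnd]
  rw [← Finset.sum_subset (Finset.subset_univ p.edges.toFinset)]
  · refine Finset.sum_congr rfl ?_
    intro e he
    rw [List.mem_toFinset, mem_path_edges_iff L.isTree p hp] at he
    simp [sep, he]
  · intro e _ he
    rw [List.mem_toFinset, mem_path_edges_iff L.isTree p hp, not_not] at he
    simp [sep, he]

/-- Symmetric functions satisfying the four-point condition. -/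
structure Quad {V : Type} (d : V → V → ℝ) : Prop where
  symm : ∀ x y, d x y = d y x
  quad : ∀ x y z t, d x y + d z t ≤ max (d x z + d y t) (d x t + d y z)

lemma sep_symm {N : Type} (T : SimpleGraph N) (e : Sym2 N) (u v : N) :
    sep T e u v = sep T e v u := by
  unfold sep
  by_cases h : SameSide T e u v
  · rw [if_pos h, if_pos h.symm]
  · rw [if_neg h, if_neg (fun h' => h h'.symm)]

lemma sep_ineq {N : Type} {T : SimpleGraph N} (hT : T.Connected) (e : Sym2 N) (a b c d : N)
    (h : ¬ (SameSide T e a c ∧ SameSide T e b d ∧ ¬ SameSide T e a b)) :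
    sep T e a b + sep T e c d ≤ sep T e a c + sep T e b d := by
  unfold sep
  by_cases hac : SameSide T e a c <;> by_cases hbd : SameSide T e b d
  · have hab : SameSide T e a b := by
      by_contra hab
      exact h ⟨hac, hbd, hab⟩
    have hcd : SameSide T e c d := hac.symm.trans (hab.trans hbd)
    simp [hac, hbd, hab, hcd]
  · by_cases hab : SameSide T e a b
    · simp only [hac, hbd, hab, if_true, if_false]
      split_ifs <;> norm_num
    · -- `a, c` on one side, `b ≁ a`, `b ≁ d`, so `a ~ d`, `c ~ d`
      have had : SameSide T e a d := by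
        rcases three_sides hT e a b d with h1 | h1 | h1
        · exact absurd h1 hab
        · exact absurd h1 hbd
        · exact h1
      have hcd : SameSide T e c d := hac.symm.trans had
      simp [hac, hbd, hab, hcd]
  · by_cases hab : SameSide T e a b
    · simp only [hac, hbd, hab, if_true, if_false]
      split_ifs <;> norm_num
    · have hbc : SameSide T e b c := by
        rcases three_sides hT e b a c with h1 | h1 | h1
        · exact absurd h1.symm hab
        · exact absurd h1 hac
        · exact h1
      have hcd : SameSide T e c d := hbc.symm.trans hbd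
      simp [hac, hbd, hab, hcd]
  · simp only [hac, hbd, if_false]
    split_ifs <;> norm_num

lemma LeafTree.quad {V : Type} (L : LeafTree V) : Quad L.dist := by
  classical
  obtain ⟨S, hS⟩ := L.dist_eq
  refine ⟨fun x y => ?_, fun x y z t => ?_⟩
  · rw [hS, hS]
    exact Finset.sum_congr rfl (fun e _ => by rw [sep_symm])
  · set x' := L.leaf x
    set y' := L.leaf y
    set z' := L.leaf z
    set t' := L.leaf t
    have hconn : L.T.Connected := L.isTree.connected
    by_cases hA : ∃ e ∈ S, SameSide L.T e x' z' ∧ SameSide L.T e y' t' ∧ ¬ SameSide L.T e x' y'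
    · -- then no edge splits as xt | yz
      obtain ⟨e, -, he1, he2, he3⟩ := hA
      refine le_max_of_le_right ?_
      rw [hS, hS, hS, hS, ← Finset.sum_add_distrib, ← Finset.sum_add_distrib]
      refine Finset.sum_le_sum (fun e' _ => ?_)
      rw [← mul_add, ← mul_add]
      refine mul_le_mul_of_nonneg_left ?_ (L.w_nonneg e')
      rw [sep_symm L.T e' (L.leaf z) (L.leaf t)]
      refine sep_ineq hconn e' x' y' t' z' ?_
      rintro ⟨h1, h2, h3⟩
      refine no_cross he1 he2 he3 (e' := e') ?_ ?_
      · exact fun h => h3 (h.trans h2.symm)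
      · exact fun h => h3 (h1.trans h.symm)
    · refine le_max_of_le_left ?_
      rw [hS, hS, hS, hS, ← Finset.sum_add_distrib, ← Finset.sum_add_distrib]
      refine Finset.sum_le_sum (fun e' he' => ?_)
      rw [← mul_add, ← mul_add]
      refine mul_le_mul_of_nonneg_left ?_ (L.w_nonneg e')
      exact sep_ineq hconn e' x' y' z' t' (fun h => hA ⟨e', he', h⟩)

end Pool.Agent.Lib.MP_f2fe1e_co
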