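import Pool.Agent.Lib.MP_f2fe1e_co.LevelTree
import Pool.Agent.Lib.MP_f2fe1e_co.TreeMetric

set_option autoImplicit false

namespace Pool.Agent.Lib.MP_f2fe1e_co

/-- A map of leaves preserving the branching levels. -/
def IsLevEmb {ℓ m M : ℕ} (e : LV ℓ m → LV ℓ M) : Prop :=
  ∀ x y, lev ℓ M (e x) (e y) = lev ℓ m x y

lemma lev_eq_iff {ℓ m : ℕ} {x y : LV ℓ m} : lev ℓ m x y = ℓ ↔ x = y := by
  constructor
  · intro h
    by_contra hne
    have := lev_lt ℓ m x y hne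
    omega
  · rintro rfl; exact lev_self ℓ m x

lemma IsLevEmb.injective {ℓ m M : ℕ} {e : LV ℓ m → LV ℓ M} (he : IsLevEmb e) :
    Function.Injective e := by
  intro x y h
  rw [← lev_eq_iff, ← he, h]
  exact lev_self ℓ M _

lemma IsLevEmb.comp {ℓ m M M' : ℕ} {e : LV ℓ m → LV ℓ M} {e' : LV ℓ M → LV ℓ M'}
    (he : IsLevEmb e) (he' : IsLevEmb e') : IsLevEmb (e' ∘ e) := by
  intro x y
  simp only [Function.comp]
  rw [he', he]

/-- Pigeonhole principle for the leaves of complete trees. -/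
lemma exists_const (C : Type) [Finite C] (m : ℕ) : ∀ ℓ : ℕ, ∃ M₀, ∀ M, M₀ ≤ M →
    ∀ f : LV ℓ M → C, ∃ e : LV ℓ m → LV ℓ M, IsLevEmb e ∧ ∀ x y, f (e x) = f (e y)
  | 0 => ⟨0, fun M _ f => ⟨id, fun _ _ => rfl, fun _ _ => rfl⟩⟩
  | (ℓ + 1) => by
    classical
    have := Fintype.ofFinite C
    obtain ⟨M₁, hM₁⟩ := exists_const C m ℓ
    refine ⟨max M₁ (Fintype.card C * m + 1), fun M hM f => ?_⟩
    have h1 : M₁ ≤ M := le_trans (le_max_left _ _) hM
    have h2 : Fintype.card C * m + 1 ≤ M := le_trans (le_max_right _ _) hM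
    choose e he hc using fun a : Fin M => hM₁ M h1 (fun x => f (a, x))
    by_cases hne : Nonempty (LV ℓ m)
    · obtain ⟨x₀⟩ := hne
      obtain ⟨c, hcard⟩ := Fintype.exists_lt_card_fiber_of_mul_lt_card
        (fun a : Fin M => f (a, e a x₀)) (n := m) (by simpa using h2)
      obtain ⟨φ⟩ : Nonempty (Fin m ↪ {a : Fin M // f (a, e a x₀) = c}) := by
        rw [Function.Embedding.nonempty_iff_card_le]
        rw [Fintype.card_subtype]
        simpa using hcard.le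
      refine ⟨fun x => ((φ x.1).1, e (φ x.1).1 x.2), ?_, ?_⟩
      · intro x y
        simp only [lev]
        by_cases hxy : x.1 = y.1
        · rw [if_pos hxy, if_pos (by rw [hxy]), hxy, he]
        · rw [if_neg hxy, if_neg]
          intro h
          exact hxy (φ.injective (Subtype.ext h))
      · intro x y
        have h3 : ∀ x : LV (ℓ + 1) m, f ((φ x.1).1, e (φ x.1).1 x.2) = c := by
          intro x
          exact (hc _ _ _).trans (φ x.1).2
        rw [h3, h3]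
    · rw [not_nonempty_iff] at hne
      have hemp : IsEmpty (LV (ℓ + 1) m) := ⟨fun x => hne.false x.2⟩
      exact ⟨fun x => (hemp.false x).elim, fun x => (hemp.false x).elim,
        fun x => (hemp.false x).elim⟩

/-- Product version of the pigeonhole principle. -/
lemma exists_const₂ (C : Type) [Finite C] (ℓ m : ℕ) : ∃ M₀, ∀ M, M₀ ≤ M →
    ∀ χ : LV ℓ M → LV ℓ M → C, ∃ e₁ e₂ : LV ℓ m → LV ℓ M, IsLevEmb e₁ ∧ IsLevEmb e₂ ∧
      ∀ x y x' y', χ (e₁ x) (e₂ y) = χ (e₁ x') (e₂ y') := by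
  obtain ⟨M₁, hM₁⟩ := exists_const C m ℓ
  obtain ⟨M₂, hM₂⟩ := exists_const (LV ℓ M₁ → C) m ℓ
  obtain ⟨M₃, hM₃⟩ := exists_const Unit M₁ ℓ
  refine ⟨max M₂ M₃, fun M hM χ => ?_⟩
  obtain ⟨e₀, he₀, -⟩ := hM₃ M (le_trans (le_max_right _ _) hM) (fun _ => ())
  obtain ⟨e₂, he₂, hc₂⟩ := hM₂ M (le_trans (le_max_left _ _) hM) (fun y x => χ (e₀ x) y)
  by_cases hne : Nonempty (LV ℓ m)
  · obtain ⟨y₀⟩ := hne
    obtain ⟨e₁, he₁, hc₁⟩ := hM₁ M₁ le_rfl (fun x => χ (e₀ x) (e₂ y₀))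
    refine ⟨e₀ ∘ e₁, e₂, he₁.comp he₀, he₂, fun x y x' y' => ?_⟩
    have h1 := congrFun (hc₂ y y₀) (e₁ x)
    have h2 := congrFun (hc₂ y' y₀) (e₁ x')
    simp only [Function.comp]
    rw [h1, h2]
    exact hc₁ x x'
  · rw [not_nonempty_iff] at hne
    exact ⟨fun x => (hne.false x).elim, e₂, fun x => (hne.false x).elim, he₂,
      fun x => (hne.false x).elim⟩

end Pool.Agent.Lib.MP_f2fe1e_co
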