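import Pool.Agent.Lib.MP_f2fe1e_co.LevelTree

set_option autoImplicit false

namespace Pool.Agent.Lib.MP_f2fe1e_co

lemma isIval_Icc {a : ℝ} (ha : 0 ≤ a) : IsIval (Set.Icc a (a + 1)) :=
  ⟨⟨a, Set.left_mem_Icc.mpr (by linarith)⟩, Set.ordConnected_Icc, fun _ hx => ha.trans hx.1⟩

/-- The alternating cographs starting and ending with a disjoint union level are
`k`-interval-PCGs. -/
theorem intervalPCG_LG (k M : ℕ) (hM : 2 ≤ M) : IntervalPCG k (LG 0 (2 * k + 1) M) := by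
  refine ⟨levelTree (2 * k + 1) M (by omega) hM,
    fun i => Set.Icc (4 * ((k : ℝ) - (i : ℕ))) (4 * ((k : ℝ) - (i : ℕ)) + 1), ?_, ?_, ?_⟩
  · intro i
    apply isIval_Icc
    have : ((i : ℕ) : ℝ) ≤ k := by exact_mod_cast i.2.le
    linarith
  · intro i j hij
    rw [Set.disjoint_left]
    intro x hx hy
    rw [Set.mem_Icc] at hx hy
    have h1 : ((i : ℕ) : ℤ) = (j : ℕ) := by
      have h2 : ((i : ℕ) : ℝ) - (j : ℕ) < 1 := by linarith [hx.1, hy.2]
      have h3 : ((j : ℕ) : ℝ) - (i : ℕ) < 1 := by linarith [hx.2, hy.1]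
      have h2' : ((i : ℕ) : ℤ) - (j : ℕ) < 1 := by exact_mod_cast h2
      have h3' : ((j : ℕ) : ℤ) - (i : ℕ) < 1 := by exact_mod_cast h3
      omega
    exact hij (Fin.ext (by exact_mod_cast h1))
  · intro u v huv
    have hlt := lev_lt _ _ _ _ huv
    simp only [levelTree_dist, Set.mem_Icc]
    have hkey : ∀ i : Fin k, (4 * ((k : ℝ) - (i : ℕ)) ≤
        2 * (((2 * k + 1 : ℕ) : ℝ) - (lev (2 * k + 1) M u v : ℕ)) ∧
        2 * (((2 * k + 1 : ℕ) : ℝ) - (lev (2 * k + 1) M u v : ℕ)) ≤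
        4 * ((k : ℝ) - (i : ℕ)) + 1) ↔ lev (2 * k + 1) M u v = 2 * i + 1 := by
      intro i
      constructor
      · rintro ⟨h1, h2⟩
        have h1' : (4 * ((k : ℤ) - (i : ℕ)) ≤
          2 * (((2 * k + 1 : ℕ) : ℤ) - (lev (2 * k + 1) M u v : ℕ))) := by exact_mod_cast h1
        have h2' : 2 * (((2 * k + 1 : ℕ) : ℤ) - (lev (2 * k + 1) M u v : ℕ)) ≤
          4 * ((k : ℤ) - (i : ℕ)) + 1 := by exact_mod_cast h2
        push_cast at h1' h2'
        omega
      · intro h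
        rw [h]
        push_cast
        constructor <;> linarith
    constructor
    · intro h
      have hodd : Odd (lev (2 * k + 1) M u v) := h.2
      obtain ⟨r, hr⟩ := hodd
      refine ⟨⟨r, by omega⟩, ?_⟩
      rw [hkey]
      exact hr
    · rintro ⟨i, hi⟩
      rw [hkey] at hi
      exact ⟨huv, by rw [hi]; exact ⟨i, by ring⟩⟩

theorem andPCG_LG (k M : ℕ) (hk : 1 ≤ k) (hM : 2 ≤ M) : AndPCG k (LG 0 3 M) := by
  refine ⟨fun _ => levelTree 3 M (by omega) hM, fun _ => Set.Icc 4 (4 + 1), ?_, ?_⟩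
  · intro i
    exact isIval_Icc (by norm_num)
  · intro u v huv
    have hlt := lev_lt _ _ _ _ huv
    simp only [levelTree_dist, Set.mem_Icc]
    have hkey : ((4 : ℝ) ≤ 2 * (((3 : ℕ) : ℝ) - (lev 3 M u v : ℕ)) ∧
        2 * (((3 : ℕ) : ℝ) - (lev 3 M u v : ℕ)) ≤ 4 + 1) ↔ lev 3 M u v = 1 := by
      constructor
      · rintro ⟨h1, h2⟩
        have h1' : (4 : ℤ) ≤ 2 * (((3 : ℕ) : ℤ) - (lev 3 M u v : ℕ)) := by exact_mod_cast h1
        have h2' : 2 * (((3 : ℕ) : ℤ) - (lev 3 M u v : ℕ)) ≤ (4 + 1 : ℤ) := by exact_mod_cast h2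
        omega
      · intro h
        rw [h]
        norm_num
    constructor
    · intro h _
      rw [hkey]
      have hodd : Odd (lev 3 M u v) := h.2
      obtain ⟨r, hr⟩ := hodd
      omega
    · intro h
      have h1 := h ⟨0, hk⟩
      rw [hkey] at h1
      exact ⟨huv, by rw [h1]; decide⟩

lemma IntervalPCG.orPCG {k : ℕ} {V : Type} {G : SimpleGraph V} (h : IntervalPCG k G) :
    OrPCG k G := by
  obtain ⟨L, I, hI, -, h⟩ := h
  exact ⟨fun _ => L, I, hI, h⟩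

end Pool.Agent.Lib.MP_f2fe1e_co
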